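import Pool.Agent.Lib.MP_7f2998_co.Assembly
import Pool.Agent.Lib.MP_7f2998_co.CertCo

/-!
# MP_7f2998_co : a good characterization of acyclic `T`-odd orientations

The statement uses the definitions of `Pool.Agent.Lib.MP_7f2998_co.FinalDefs` (multigraphs,
orientations, the obstruction) and `Pool.Agent.Lib.MP_7f2998_co.Lang` (the decision problem on
bit strings); the classes `NP` and `coNP` are those of `Pool.Prelude.Def_H_3587d628`.
-/

namespace Pool.Agent.Results.MP_7f2998_co.MinMax

open Pool.Agent.AOP

/-- For every finite loopless multigraph `G` and every `T`: `G` has an acyclic `T`-odd orientation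
if and only if `(G, T)` has no obstruction, and an obstruction, if there is one, can be chosen
with fewer than `|V|` graphs.  The decision problem is in `NP ∩ coNP`. -/
theorem result :
    (∀ (V E : Type) [Fintype V] [Fintype E] [DecidableEq V] (G : MGraph V E) (T : Finset V),
      ((∃ D : E → Bool, G.Acyclic D ∧ G.TOdd D T) →
        ¬ ∃ (m : ℕ) (H : Fin m → SimpleGraph (V ⊕ Bool)), Obstruction G T H) ∧
      ((¬ ∃ D : E → Bool, G.Acyclic D ∧ G.TOdd D T) →
        ∃ (m : ℕ) (H : Fin m → SimpleGraph (V ⊕ Bool)),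
          m < Fintype.card V ∧ Obstruction G T H)) ∧
    ATOdd ∈ N68a2faeb.NP ∧ ATOdd ∈ N68a2faeb.coNP :=
  ⟨C62.minMax, Cert.atOdd_mem_NP, Cert.atOdd_mem_coNP C62.minMax⟩

end Pool.Agent.Results.MP_7f2998_co.MinMax
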